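import Pool.Agent.R735.TwoSing.Defs

set_option autoImplicit false

open scoped RealInnerProductSpace ContDiff Quaternion

open Pool.Agent.R731.SO

namespace Pool.Agent.R735.TwoSing

/-- `ℝ⁸`. -/
abbrev E8 : Type := EuclideanSpace ℝ (Fin 8)

/-- the first quaternionic coordinate -/
noncomputable def qa (p : E8) : ℍ[ℝ] := ⟨p 0, p 1, p 2, p 3⟩
/-- the second quaternionic coordinate -/
noncomputable def qb (p : E8) : ℍ[ℝ] := ⟨p 4, p 5, p 6, p 7⟩

/-- the vector with given quaternionic coordinates -/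
noncomputable def mk (a b : ℍ[ℝ]) : E8 :=
  !₂[a.re, a.imI, a.imJ, a.imK, b.re, b.imI, b.imJ, b.imK]

theorem qa_mk (a b : ℍ[ℝ]) : qa (mk a b) = a := by
  ext <;> simp [qa, mk]
theorem qb_mk (a b : ℍ[ℝ]) : qb (mk a b) = b := by
  ext <;> simp [qb, mk]
theorem mk_eta (p : E8) : mk (qa p) (qb p) = p := by
  ext i; fin_cases i <;> simp [qa, qb, mk]

theorem ext2 {p p' : E8} (h1 : qa p = qa p') (h2 : qb p = qb p') : p = p' := by
  rw [← mk_eta p, ← mk_eta p', h1, h2]

theorem normSq_eq4 (a : ℍ[ℝ]) : Quaternion.normSq a = a.re ^ 2 + a.imI ^ 2 + a.imJ ^ 2 + a.imK ^ 2 := by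
  rw [Quaternion.normSq_def']

theorem norm_sq_eq (p : E8) : ‖p‖ ^ 2 =
    Quaternion.normSq (qa p) + Quaternion.normSq (qb p) := by
  rw [EuclideanSpace.norm_sq_eq, normSq_eq4, normSq_eq4]
  simp only [Fin.sum_univ_succ, Fin.sum_univ_zero]
  simp [qa, qb]
  ring

theorem mk_add (a b a' b' : ℍ[ℝ]) : mk (a + a') (b + b') = mk a b + mk a' b' := by
  ext i; fin_cases i <;> simp [mk]
theorem mk_smul (r : ℝ) (a b : ℍ[ℝ]) : mk (r • a) (r • b) = r • mk a b := by
  ext i; fin_cases i <;> simp [mk]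
theorem qa_add (p p' : E8) : qa (p + p') = qa p + qa p' := by
  ext <;> simp [qa]
theorem qb_add (p p' : E8) : qb (p + p') = qb p + qb p' := by
  ext <;> simp [qb]
theorem qa_smul (r : ℝ) (p : E8) : qa (r • p) = r • qa p := by
  ext <;> simp [qa]
theorem qb_smul (r : ℝ) (p : E8) : qb (r • p) = r • qb p := by
  ext <;> simp [qb]

/-- the action of the pair `(w, q)` of quaternions: `(a, b) ↦ (q a w*, q b)` -/
noncomputable def act (w q : ℍ[ℝ]) (p : E8) : E8 := mk (q * qa p * star w) (q * qb p)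

theorem qa_act (w q : ℍ[ℝ]) (p : E8) : qa (act w q p) = q * qa p * star w := qa_mk _ _
theorem qb_act (w q : ℍ[ℝ]) (p : E8) : qb (act w q p) = q * qb p := qb_mk _ _

theorem act_add (w q : ℍ[ℝ]) (p p' : E8) : act w q (p + p') = act w q p + act w q p' := by
  unfold act
  rw [← mk_add, qa_add, qb_add, mul_add, mul_add, add_mul]

theorem act_smul (w q : ℍ[ℝ]) (r : ℝ) (p : E8) : act w q (r • p) = r • act w q p := by
  unfold act
  rw [← mk_smul, qa_smul, qb_smul, mul_smul_comm, mul_smul_comm, smul_mul_assoc]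

theorem act_mul (w q w' q' : ℍ[ℝ]) (p : E8) : act (w * w') (q * q') p = act w q (act w' q' p) := by
  apply ext2
  · rw [qa_act, qa_act, qa_act, star_mul]
    simp only [mul_assoc]
  · rw [qb_act, qb_act, qb_act, mul_assoc]

theorem act_one (p : E8) : act 1 1 p = p := by
  apply ext2
  · rw [qa_act, one_mul, star_one, mul_one]
  · rw [qb_act, one_mul]

theorem norm_act (w q : ℍ[ℝ]) (hw : ‖w‖ = 1) (hq : ‖q‖ = 1) (p : E8) : ‖act w q p‖ = ‖p‖ := by
  have hq' : Quaternion.normSq q = 1 := by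
    rw [Quaternion.normSq_eq_norm_mul_self, hq, one_mul]
  have hw' : Quaternion.normSq w = 1 := by
    rw [Quaternion.normSq_eq_norm_mul_self, hw, one_mul]
  have h : ‖act w q p‖ ^ 2 = ‖p‖ ^ 2 := by
    rw [norm_sq_eq, norm_sq_eq, qa_act, qb_act]
    simp only [map_mul, Quaternion.normSq_star, hq', hw', one_mul, mul_one]
  exact (sq_eq_sq₀ (norm_nonneg _) (norm_nonneg _)).1 h

theorem norm_SU2 (q : SU2) : ‖(q : ℍ[ℝ])‖ = 1 := mem_sphere_zero_iff_norm.1 q.2

/-- complex numbers as quaternions -/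
noncomputable def cq (z : ℂ) : ℍ[ℝ] := ⟨z.re, z.im, 0, 0⟩

theorem cq_mul (z w : ℂ) : cq (z * w) = cq z * cq w := by
  ext <;> simp [cq]
theorem cq_one : cq 1 = 1 := by
  ext <;> simp [cq]
theorem cq_add (z w : ℂ) : cq (z + w) = cq z + cq w := by
  ext <;> simp [cq]
theorem cq_smul (r : ℝ) (z : ℂ) : cq (r • z) = r • cq z := by
  ext <;> simp [cq]
theorem cq_inj {z w : ℂ} (h : cq z = cq w) : z = w := by
  have h1 := congrArg QuaternionAlgebra.re h
  have h2 := congrArg QuaternionAlgebra.imI h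
  exact Complex.ext h1 h2

theorem norm_cq (z : Circle) : ‖cq (z : ℂ)‖ = 1 := by
  have h : ‖cq (z : ℂ)‖ ^ 2 = 1 := by
    rw [sq, ← Quaternion.normSq_eq_norm_mul_self, normSq_eq4]
    have h1 := Circle.normSq_coe z
    rw [Complex.normSq_apply] at h1
    simp only [cq]
    linarith
  have := norm_nonneg (cq (z : ℂ))
  nlinarith

/-- the action as a homomorphism into the orthogonal group:
`ρ (z, q) (a, b) = (q a z⁻¹, q b)` -/
noncomputable def rho : GG →* (E8 ≃ₗᵢ[ℝ] E8) where
  toFun g :=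
    { toFun := act (cq (g.1 : ℂ)) g.2
      invFun := act (cq ((g⁻¹).1 : ℂ)) (g⁻¹).2
      map_add' := act_add _ _
      map_smul' := fun r p => act_smul _ _ r p
      left_inv := fun p => by
        rw [← act_mul, ← cq_mul, ← Circle.coe_mul, ← Metric.unitSphere.coe_mul, ← Prod.fst_mul,
          ← Prod.snd_mul, inv_mul_cancel]
        simp only [Prod.fst_one, Prod.snd_one, Circle.coe_one, cq_one]
        exact act_one p
      right_inv := fun p => by
        rw [← act_mul, ← cq_mul, ← Circle.coe_mul, ← Metric.unitSphere.coe_mul, ← Prod.fst_mul,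
          ← Prod.snd_mul, mul_inv_cancel]
        simp only [Prod.fst_one, Prod.snd_one, Circle.coe_one, cq_one]
        exact act_one p
      norm_map' := norm_act _ _ (norm_cq g.1) (norm_SU2 g.2) }
  map_one' := by
    ext1 p
    change act (cq ((1 : Circle) : ℂ)) (1 : ℍ[ℝ]) p = p
    rw [Circle.coe_one, cq_one]
    exact act_one p
  map_mul' g g' := by
    ext1 p
    change act (cq ((g.1 * g'.1 : Circle) : ℂ)) ((g.2 * g'.2 : SU2) : ℍ[ℝ]) p =
      act (cq (g.1 : ℂ)) g.2 (act (cq (g'.1 : ℂ)) g'.2 p)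
    rw [Circle.coe_mul, cq_mul, Metric.unitSphere.coe_mul]
    exact act_mul _ _ _ _ p

theorem rho_apply (g : GG) (p : E8) : rho g p = act (cq (g.1 : ℂ)) g.2 p := rfl

/-- `qa` as a continuous linear map -/
noncomputable def qaL : E8 →L[ℝ] ℍ[ℝ] :=
  LinearMap.toContinuousLinearMap { toFun := qa, map_add' := qa_add, map_smul' := qa_smul }
/-- `qb` as a continuous linear map -/
noncomputable def qbL : E8 →L[ℝ] ℍ[ℝ] :=
  LinearMap.toContinuousLinearMap { toFun := qb, map_add' := qb_add, map_smul' := qb_smul }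
/-- `mk` as a continuous linear map -/
noncomputable def mkL : (ℍ[ℝ] × ℍ[ℝ]) →L[ℝ] E8 :=
  LinearMap.toContinuousLinearMap
    { toFun := fun x => mk x.1 x.2
      map_add' := fun _ _ => mk_add _ _ _ _
      map_smul' := fun r _ => mk_smul r _ _ }
/-- conjugation as a continuous linear map -/
noncomputable def starH : ℍ[ℝ] →L[ℝ] ℍ[ℝ] :=
  LinearMap.toContinuousLinearMap
    { toFun := fun x => star x
      map_add' := fun x y => star_add x y
      map_smul' := fun r x => by simp }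
/-- `cq` as a continuous linear map -/
noncomputable def cqL : ℂ →L[ℝ] ℍ[ℝ] :=
  LinearMap.toContinuousLinearMap { toFun := cq, map_add' := cq_add, map_smul' := cq_smul }

theorem qaL_apply (p : E8) : qaL p = qa p := rfl
theorem qbL_apply (p : E8) : qbL p = qb p := rfl
theorem mkL_apply (a b : ℍ[ℝ]) : mkL (a, b) = mk a b := rfl

theorem continuous_qa : Continuous qa := qaL.continuous
theorem continuous_qb : Continuous qb := qbL.continuous

theorem isSmoothAction_rho : IsSmoothAction inclG rho := by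
  refine ⟨fun x => mkL (x.1.2 * qaL x.2 * starH (cqL x.1.1), x.1.2 * qbL x.2), ?_, ?_⟩
  · have h1 : ContDiff ℝ ∞ fun x : (ℂ × ℍ[ℝ]) × E8 => x.1.2 := contDiff_snd.comp contDiff_fst
    have h2 : ContDiff ℝ ∞ fun x : (ℂ × ℍ[ℝ]) × E8 => starH (cqL x.1.1) :=
      starH.contDiff.comp (cqL.contDiff.comp (contDiff_fst.comp contDiff_fst))
    have h3 : ContDiff ℝ ∞ fun x : (ℂ × ℍ[ℝ]) × E8 => qaL x.2 := qaL.contDiff.comp contDiff_snd
    have h4 : ContDiff ℝ ∞ fun x : (ℂ × ℍ[ℝ]) × E8 => qbL x.2 := qbL.contDiff.comp contDiff_snd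
    exact mkL.contDiff.comp (((h1.mul h3).mul h2).prodMk (h1.mul h4))
  · intro g p
    rfl

end Pool.Agent.R735.TwoSing
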