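import Pool.Agent.R731.SO.Ric

/-!
# Two different singular orbits and almost nonnegative sectional curvature

The orbit geometry of orthogonal actions on unit spheres, and Riemannian metrics on unit spheres,
are taken from `Pool.Agent.R731.SO.Defs`.
-/

set_option autoImplicit false

open scoped RealInnerProductSpace ContDiff Quaternion

open Pool.Agent.R731.SO

namespace Pool.Agent.R735.TwoSing

/-- The group `S¹ × SU(2)`, where `SU(2)` is the group of unit quaternions. -/
abbrev GG : Type := Circle × SU2

/-- The inclusion of the submanifold `S¹ × SU(2)` of `ℂ × ℍ`. -/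
def inclG (g : GG) : ℂ × ℍ[ℝ] := ((g.1 : ℂ), (g.2 : ℍ[ℝ]))

section Action

variable {G : Type} [Group G] {E : Type} [NormedAddCommGroup E] [InnerProductSpace ℝ E]

/-- An orthogonal action makes the unit sphere of `E` a `G`-manifold with finitely many
non-principal orbits and two different singular orbits:
* there is a principal isotropy type;
* only finitely many orbits are not principal;
* there are exactly two singular orbits `O₁` and `O₂`, and they are different in the following
  strong sense: no isotropy group of a point of `O₁` is carried to an isotropy group of a point of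
  `O₂` by an automorphism of the group `G` (inner or not). -/
def TwoDifferentSingularOrbits (ρ : G →* (E ≃ₗᵢ[ℝ] E)) : Prop :=
  (∃ H : Subgroup G, IsPrincipalType ρ H) ∧
    {O : Set E | IsOrbit ρ O ∧ ¬ IsPrincipalOrbit ρ O}.Finite ∧
    ∃ O₁ O₂ : Set E, O₁ ≠ O₂ ∧ {O : Set E | IsSingularOrbit ρ O} = {O₁, O₂} ∧
      ∀ p₁ ∈ O₁, ∀ p₂ ∈ O₂, ∀ φ : G ≃* G, stab ρ p₂ ≠ (stab ρ p₁).map φ.toMonoidHom

/-- An orthogonal action of the group `G`, which is embedded in the normed space `F` by `ι`, is
smooth: it is the restriction of a smooth map `F × E → E`. -/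
def IsSmoothAction {F : Type} [NormedAddCommGroup F] [NormedSpace ℝ F] (ι : G → F)
    (ρ : G →* (E ≃ₗᵢ[ℝ] E)) : Prop :=
  ∃ Φ : F × E → E, ContDiff ℝ ∞ Φ ∧ ∀ (g : G) (p : E), app ρ g p = Φ (ι g, p)

end Action

section Metric

variable {E : Type} [NormedAddCommGroup E] [InnerProductSpace ℝ E]

/-- The sectional curvature of the metric `m` with Levi-Civita connection `D` on the unit sphere is
at least `κ`: for tangent vectors `u = X p` and `v = Y p`,
`m(R(u, v) v, u) ≥ κ (m(u, u) m(v, v) - m(u, v)²)`. -/
def SecGE (m : E → E → E → ℝ) (D : (E → E) → E → E → E) (κ : ℝ) : Prop :=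
  ∀ p : E, ‖p‖ = 1 → ∀ X Y : E → E, IsField X → IsField Y →
    κ * (m p (X p) (X p) * m p (Y p) (Y p) - m p (X p) (Y p) ^ 2) ≤
      m p (curv D X Y Y p) (X p)

/-- The diameter of the unit sphere with respect to the metric `m` is at most `d`: any two points
are joined by smooth curves in the sphere of length at most `d + δ`, for every `δ > 0`. -/
def DiamLE (m : E → E → E → ℝ) (d : ℝ) : Prop :=
  ∀ p q : E, ‖p‖ = 1 → ‖q‖ = 1 → ∀ δ > 0, ∃ γ : ℝ → E, ContDiff ℝ ∞ γ ∧ (∀ t, ‖γ t‖ = 1) ∧
    γ 0 = p ∧ γ 1 = q ∧ ∫ t in (0 : ℝ)..1, √(m (γ t) (deriv γ t) (deriv γ t)) ≤ d + δ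

/-- The unit sphere of `E` admits metrics of almost nonnegative sectional curvature: for every
`ε > 0` there is a Riemannian metric with sectional curvature at least `-ε` and diameter at most
`1`. -/
def AdmitsAlmostNonnegativeCurvature (E : Type) [NormedAddCommGroup E] [InnerProductSpace ℝ E] :
    Prop :=
  ∀ ε : ℝ, 0 < ε → ∃ m : E → E → E → ℝ, IsMetric m ∧ (∃ D, IsLeviCivita m D ∧ SecGE m D (-ε)) ∧
    DiamLE m 1

/-- The unit sphere of `E` admits a Riemannian metric which is invariant under the action `ρ`, has
sectional curvature at least `κ` and diameter at most `d`. -/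
def AdmitsInvariantMetric {G : Type} [Group G] (ρ : G →* (E ≃ₗᵢ[ℝ] E)) (κ d : ℝ) : Prop :=
  ∃ m : E → E → E → ℝ, IsMetric m ∧
    (∀ g p u v, m (app ρ g p) (app ρ g u) (app ρ g v) = m p u v) ∧
    (∃ D, IsLeviCivita m D ∧ SecGE m D κ) ∧ DiamLE m d

end Metric

/-- The topological group `G`, embedded in the normed space `F` by `ι`, is compact and connected,
and it has an orthogonal action on the Euclidean space `E` which is smooth and effective, which
makes the unit sphere of `E` a `G`-manifold with finitely many non-principal orbits and with two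
different singular orbits, of cohomogeneity `c`; and the unit sphere of `E` admits metrics of
almost nonnegative sectional curvature, and even a `G`-invariant metric of sectional curvature at
least `16` and diameter at most `1`. -/
def IsExample (G : Type) [Group G] [TopologicalSpace G] (F : Type) [NormedAddCommGroup F]
    [NormedSpace ℝ F] (ι : G → F) (E : Type) [NormedAddCommGroup E] [InnerProductSpace ℝ E]
    (c : ℕ) : Prop :=
  CompactSpace G ∧ ConnectedSpace G ∧ ∃ ρ : G →* (E ≃ₗᵢ[ℝ] E), IsSmoothAction ι ρ ∧
    Function.Injective ρ ∧ TwoDifferentSingularOrbits ρ ∧ HasCohomogeneity ρ c ∧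
    AdmitsAlmostNonnegativeCurvature E ∧ AdmitsInvariantMetric ρ 16 1

end Pool.Agent.R735.TwoSing
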