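import Pool.Agent.R735.TwoSing.Vel

set_option autoImplicit false

open scoped RealInnerProductSpace ContDiff Quaternion

open Pool.Agent.R731.SO

namespace Pool.Agent.R735.TwoSing

/-- the first singular orbit -/
def OA : Set E8 := {p | qa p = 0 ∧ ‖p‖ = 1}
/-- the second singular orbit -/
def OB : Set E8 := {p | qb p = 0 ∧ ‖p‖ = 1}

theorem normSq_b (p : E8) (hp : ‖p‖ = 1) (ha : qa p = 0) : Quaternion.normSq (qb p) = 1 := by
  have h := norm_sq_eq p
  rw [hp, ha, map_zero, zero_add] at h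
  rw [← h]; norm_num

theorem normSq_a (p : E8) (hp : ‖p‖ = 1) (hb : qb p = 0) : Quaternion.normSq (qa p) = 1 := by
  have h := norm_sq_eq p
  rw [hp, hb, map_zero, add_zero] at h
  rw [← h]; norm_num

/-- `SU(2)` acts transitively on the unit quaternions -/
theorem transitive (b b' : ℍ[ℝ]) (h : Quaternion.normSq b = 1) (h' : Quaternion.normSq b' = 1) :
    ∃ q : SU2, (q : ℍ[ℝ]) * b = b' := by
  have hn : ∀ x : ℍ[ℝ], Quaternion.normSq x = 1 → ‖x‖ = 1 := by
    intro x hx
    rw [Quaternion.normSq_eq_norm_mul_self] at hx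
    have := norm_nonneg x
    nlinarith
  refine ⟨⟨b' * star b, ?_⟩, ?_⟩
  · rw [mem_sphere_zero_iff_norm, norm_mul, norm_star, hn b h, hn b' h', one_mul]
  · change b' * star b * b = b'
    rw [mul_assoc, Quaternion.star_mul_self, h]
    simp

theorem orbit_a (p : E8) (hp : ‖p‖ = 1) (ha : qa p = 0) : orbit rho p = OA := by
  ext x
  constructor
  · rintro ⟨g, rfl⟩
    refine ⟨?_, ?_⟩
    · rw [rho_apply, qa_act, ha, mul_zero, zero_mul]
    · rw [LinearIsometryEquiv.norm_map, hp]
  · rintro ⟨hx, hx1⟩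
    obtain ⟨q, hq⟩ := transitive (qb p) (qb x) (normSq_b p hp ha) (normSq_b x hx1 hx)
    refine ⟨(1, q), ?_⟩
    apply ext2
    · rw [rho_apply, qa_act, ha, mul_zero, zero_mul, hx]
    · rw [rho_apply, qb_act, hq]

theorem orbit_b (p : E8) (hp : ‖p‖ = 1) (hb : qb p = 0) : orbit rho p = OB := by
  ext x
  constructor
  · rintro ⟨g, rfl⟩
    refine ⟨?_, ?_⟩
    · rw [rho_apply, qb_act, hb, mul_zero]
    · rw [LinearIsometryEquiv.norm_map, hp]
  · rintro ⟨hx, hx1⟩
    obtain ⟨q, hq⟩ := transitive (qa p) (qa x) (normSq_a p hp hb) (normSq_a x hx1 hx)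
    refine ⟨(1, q), ?_⟩
    apply ext2
    · rw [rho_apply, qa_act]
      change qa x = q * qa p * star (cq ((1 : Circle) : ℂ))
      rw [Circle.coe_one, cq_one, star_one, mul_one, hq]
    · rw [rho_apply, qb_act, hb, mul_zero, hx]

/-- a point of the first singular orbit -/
noncomputable def sa : Sph E8 := ⟨mk 0 1, mem_sphere_zero_iff_norm.2 (norm_mk _ _ (by simp))⟩
/-- a point of the second singular orbit -/
noncomputable def sb : Sph E8 := ⟨mk 1 0, mem_sphere_zero_iff_norm.2 (norm_mk _ _ (by simp))⟩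

theorem qa_sa : qa sa = 0 := qa_mk _ _
theorem qb_sb : qb sb = 0 := qb_mk _ _

theorem not_free_cases {p : E8} (hp : ¬ Free p) : qa p = 0 ∨ qb p = 0 := by
  by_contra h
  push Not at h
  exact hp h

theorem singularOrbits : {O : Set E8 | IsSingularOrbit rho O} = {OA, OB} := by
  ext O
  constructor
  · rintro ⟨p, hO, h⟩
    by_cases hp : Free p
    · exact absurd (h p ((isPrincipalPt_iff p).2 hp)) (lt_irrefl _)
    · rcases not_free_cases hp with ha | hb
      · left
        rw [hO, orbit_a p (norm_Sph p) ha]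
      · right
        rw [Set.mem_singleton_iff, hO, orbit_b p (norm_Sph p) hb]
  · rintro (rfl | rfl)
    · refine ⟨sa, (orbit_a sa (norm_Sph _) qa_sa).symm, fun p' hp' => ?_⟩
      rw [orbitDim_free p' ((isPrincipalPt_iff p').1 hp')]
      exact orbitDim_sing sa (fun h => h.1 qa_sa)
    · refine ⟨sb, (orbit_b sb (norm_Sph _) qb_sb).symm, fun p' hp' => ?_⟩
      rw [orbitDim_free p' ((isPrincipalPt_iff p').1 hp')]
      exact orbitDim_sing sb (fun h => h.2 qb_sb)

theorem OA_ne_OB : OA ≠ OB := by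
  intro h
  have h1 : (sa : E8) ∈ OA := ⟨qa_sa, norm_Sph _⟩
  rw [h] at h1
  exact qb_ne_of sa (norm_Sph _) qa_sa h1.1

theorem nonprincipal_finite :
    {O : Set E8 | IsOrbit rho O ∧ ¬ IsPrincipalOrbit rho O}.Finite := by
  refine (Set.toFinite ({OA, OB} : Set (Set E8))).subset ?_
  rintro O ⟨⟨p, hO⟩, h⟩
  by_cases hp : Free p
  · exact absurd ⟨p, hO, (isPrincipalPt_iff p).2 hp⟩ h
  · rcases not_free_cases hp with ha | hb
    · left
      rw [hO, orbit_a p (norm_Sph p) ha]
    · right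
      rw [Set.mem_singleton_iff, hO, orbit_b p (norm_Sph p) hb]

/-- the quaternion `j` -/
noncomputable def qj : ℍ[ℝ] := ⟨0, 0, 1, 0⟩

/-- The isotropy groups of the first singular orbit are central, those of the second one are
not. -/
theorem not_isotropy (p₁ : E8) (h₁ : p₁ ∈ OA) (p₂ : E8) (h₂ : p₂ ∈ OB) (φ : GG ≃* GG) :
    stab rho p₂ ≠ (stab rho p₁).map φ.toMonoidHom := by
  intro h
  obtain ⟨q, hq, hm⟩ := mem_stab_b p₂ h₂.2 h₂.1 zi
  rw [h, stab_a p₁ h₁.1 (qb_ne_of p₁ h₁.2 h₁.1)] at hm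
  obtain ⟨g, hg, hgq⟩ := Subgroup.mem_map.1 hm
  have hg2 : g.2 = 1 := (Subgroup.mem_prod.1 hg).2
  have hcen : ∀ x : GG, g * x = x * g := by
    intro x
    refine Prod.ext (mul_comm _ _) ?_
    rw [Prod.snd_mul, Prod.snd_mul, hg2, one_mul, mul_one]
  have hcen2 : ∀ y : GG, (zi, q) * y = y * (zi, q) := by
    intro y
    obtain ⟨x, rfl⟩ := φ.surjective y
    have hgq' : φ g = (zi, q) := hgq
    rw [← hgq', ← map_mul, ← map_mul, hcen x]
  set a := qa p₂ with ha
  have hn := normSq_a p₂ h₂.2 h₂.1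
  rw [← ha] at hn
  have hna : ‖a‖ = 1 := by
    rw [Quaternion.normSq_eq_norm_mul_self] at hn
    have := norm_nonneg a
    nlinarith
  have hss : star a * a = 1 := by rw [Quaternion.star_mul_self, hn]; rfl
  have hjn : ‖qj‖ = 1 := by
    have h1 : ‖qj‖ * ‖qj‖ = 1 := by
      rw [← Quaternion.normSq_eq_norm_mul_self, normSq_eq4]
      simp [qj]
    have := norm_nonneg qj
    nlinarith
  let r : SU2 := ⟨a * qj * star a, by
    rw [mem_sphere_zero_iff_norm, norm_mul, norm_mul, norm_star, hna, hjn]; norm_num⟩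
  have h3 := congrArg (fun y : GG => ((y.2 : SU2) : ℍ[ℝ])) (hcen2 (1, r))
  have h4 : (q : ℍ[ℝ]) * (r : ℍ[ℝ]) = (r : ℍ[ℝ]) * (q : ℍ[ℝ]) := h3
  have hr : (r : ℍ[ℝ]) = a * qj * star a := rfl
  rw [hq, hr] at h4
  have h5 : star a * (a * cq (zi : ℂ) * star a * (a * qj * star a)) * a =
      star a * (a * qj * star a * (a * cq (zi : ℂ) * star a)) * a := by rw [h4]
  have e1 : ∀ x y : ℍ[ℝ], star a * (a * x * star a * (a * y * star a)) * a = x * y := by
    intro x y
    calc star a * (a * x * star a * (a * y * star a)) * a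
        = (star a * a) * x * (star a * a) * y * (star a * a) := by simp only [mul_assoc]
      _ = x * y := by rw [hss, one_mul, mul_one, mul_one]
  rw [e1, e1] at h5
  have h6 := congrArg QuaternionAlgebra.imK h5
  have hzr : (zi : ℂ).re = 0 := Complex.I_re
  have hzi : (zi : ℂ).im = 1 := Complex.I_im
  simp [cq, qj, hzi] at h6
  norm_num at h6

theorem twoDifferentSingularOrbits : TwoDifferentSingularOrbits rho :=
  ⟨⟨⊥, isPrincipalType_bot⟩, nonprincipal_finite, OA, OB, OA_ne_OB, singularOrbits,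
    fun p₁ h₁ p₂ h₂ φ => not_isotropy p₁ h₁ p₂ h₂ φ⟩

theorem cohomogeneity : HasCohomogeneity rho 3 := by
  intro p hp
  rw [orbitDim_free p ((isPrincipalPt_iff p).1 hp)]
  simp

theorem compact_GG : CompactSpace GG := inferInstance

theorem connected_SU2 : ConnectedSpace SU2 := by
  rw [← isConnected_iff_connectedSpace]
  refine isConnected_sphere ?_ _ zero_le_one
  rw [Quaternion.rank_eq_four]
  norm_num

theorem connected_Circle : ConnectedSpace Circle := inferInstance

theorem connected_GG : ConnectedSpace GG := by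
  have := connected_SU2
  have := connected_Circle
  infer_instance

theorem main : IsExample GG (ℂ × ℍ[ℝ]) inclG E8 3 :=
  ⟨compact_GG, connected_GG, rho, isSmoothAction_rho, rho_injective, twoDifferentSingularOrbits,
    cohomogeneity, almostNonneg (by simp), invariantMetric (by simp) rho⟩

end Pool.Agent.R735.TwoSing
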