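import Pool.Agent.R735.TwoSing.Defs

set_option autoImplicit false

open scoped RealInnerProductSpace ContDiff

open Pool.Agent.R731.SO

namespace Pool.Agent.R735.TwoSing

variable {E : Type} [NormedAddCommGroup E] [InnerProductSpace ℝ E]

/-- the round metric of radius `r` -/
noncomputable def rdr (r : ℝ) (_ : E) (u v : E) : ℝ := r ^ 2 * ⟪u, v⟫

theorem isMetric_rdr (r : ℝ) (hr : 0 < r) : IsMetric (rdr (E := E) r) where
  smooth V W hV hW := contDiff_const.mul (hV.1.inner ℝ hW.1)
  add p u v w := by unfold rdr; rw [inner_add_left]; ring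
  smul p u w c := by unfold rdr; rw [real_inner_smul_left]; ring
  symm p u v := by unfold rdr; rw [real_inner_comm]
  pos p u _ _ hu := by
    unfold rdr
    have := real_inner_self_pos.2 hu
    positivity

theorem isLeviCivita_rdr (r : ℝ) : IsLeviCivita (rdr (E := E) r) nabla where
  field := isLeviCivita_nabla.field
  dir_add := isLeviCivita_nabla.dir_add
  dir_smul := isLeviCivita_nabla.dir_smul
  field_add := isLeviCivita_nabla.field_add
  leibniz := isLeviCivita_nabla.leibniz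
  torsion_free := isLeviCivita_nabla.torsion_free
  metric V W hV hW p u hp hu := by
    have h := isLeviCivita_nabla.metric V W hV hW p u hp hu
    unfold rd at h
    unfold rdr
    have h1 : DifferentiableAt ℝ (fun x => ⟪V x, W x⟫) p := (hV.diff p).inner ℝ (hW.diff p)
    have h2 : fderiv ℝ (fun x => r ^ 2 * ⟪V x, W x⟫) p = r ^ 2 • fderiv ℝ (fun x => ⟪V x, W x⟫) p :=
      fderiv_const_mul h1 _
    rw [h2, smul_apply, h, smul_eq_mul]
    ring

theorem secGE_rdr (r κ : ℝ) (hκ : κ * r ^ 2 ≤ 1) : SecGE (rdr (E := E) r) nabla κ := by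
  intro p hp X Y hX hY
  rw [curv_nabla hX hY hY p hp]
  unfold rdr
  have e : ⟪Y p, X p⟫ = ⟪X p, Y p⟫ := real_inner_comm _ _
  rw [inner_sub_left, real_inner_smul_left, real_inner_smul_left, e]
  have h1 : ⟪X p, Y p⟫ * ⟪X p, Y p⟫ ≤ ⟪X p, X p⟫ * ⟪Y p, Y p⟫ := by
    have := real_inner_mul_inner_self_le (X p) (Y p)
    exact this
  have h2 : 0 ≤ r ^ 2 * (⟪X p, X p⟫ * ⟪Y p, Y p⟫ - ⟪X p, Y p⟫ * ⟪X p, Y p⟫) :=
    mul_nonneg (sq_nonneg _) (by linarith)
  have h3 := mul_nonneg h2 (sub_nonneg.2 hκ)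
  nlinarith

/-- a unit vector orthogonal to a given one -/
theorem exists_orth [FiniteDimensional ℝ E] (hE : 2 ≤ Module.finrank ℝ E) (p : E)
    (hp : ‖p‖ = 1) : ∃ w : E, ‖w‖ = 1 ∧ ⟪p, w⟫ = 0 := by
  have hp0 : p ≠ 0 := by
    intro h
    rw [h, norm_zero] at hp
    exact zero_ne_one hp
  have h1 : Module.finrank ℝ (Submodule.span ℝ {p}) = 1 := finrank_span_singleton hp0
  have h2 := Submodule.finrank_add_finrank_orthogonal (K := Submodule.span ℝ {p})
  have h3 : 0 < Module.finrank ℝ (Submodule.span ℝ {p})ᗮ := by omega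
  have h4 : Nontrivial (Submodule.span ℝ {p})ᗮ := Module.finrank_pos_iff.1 h3
  obtain ⟨w, hw⟩ := exists_ne (0 : (Submodule.span ℝ {p})ᗮ)
  have hw0 : (w : E) ≠ 0 := fun h => hw (Subtype.ext h)
  have hw1 : ⟪p, (w : E)⟫ = 0 := (Submodule.mem_orthogonal_singleton_iff_inner_right).1 w.2
  refine ⟨‖(w : E)‖⁻¹ • (w : E), ?_, ?_⟩
  · rw [norm_smul, norm_inv, norm_norm, inv_mul_cancel₀ (norm_ne_zero_iff.2 hw0)]
  · rw [real_inner_smul_right, hw1, mul_zero]

/-- points of the sphere are joined by great circles -/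
theorem exists_circle [FiniteDimensional ℝ E] (hE : 2 ≤ Module.finrank ℝ E) (p q : E)
    (hp : ‖p‖ = 1) (hq : ‖q‖ = 1) :
    ∃ (w : E) (θ : ℝ), ‖w‖ = 1 ∧ ⟪p, w⟫ = 0 ∧ 0 ≤ θ ∧ θ ≤ Real.pi ∧
      q = Real.cos θ • p + Real.sin θ • w := by
  set c : ℝ := ⟪p, q⟫ with hc
  have hc1 : |c| ≤ 1 := by
    have := abs_real_inner_le_norm p q
    rw [hp, hq] at this
    simpa using this
  have hc2 := abs_le.1 hc1
  set v : E := q - c • p with hv
  have hpv : ⟪p, v⟫ = 0 := by
    rw [hv, inner_sub_right, real_inner_smul_right, inner_self1 hp]; ring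
  have hvn : ‖v‖ ^ 2 = 1 - c ^ 2 := by
    rw [← real_inner_self_eq_norm_sq, hv, inner_sub_left, inner_sub_right, inner_sub_right,
      real_inner_smul_left, real_inner_smul_right, real_inner_smul_left, real_inner_smul_right,
      inner_self1 hp, inner_self1 hq, real_inner_comm p q, ← hc]
    ring
  have hsin : Real.sin (Real.arccos c) = ‖v‖ := by
    rw [Real.sin_arccos, ← hvn, Real.sqrt_sq (norm_nonneg _)]
  by_cases h0 : v = 0
  · obtain ⟨w, hw, hpw⟩ := exists_orth hE p hp
    refine ⟨w, Real.arccos c, hw, hpw, Real.arccos_nonneg _, Real.arccos_le_pi _, ?_⟩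
    rw [hsin, h0, norm_zero, zero_smul, add_zero, Real.cos_arccos hc2.1 hc2.2]
    exact sub_eq_zero.1 h0
  · have hn : ‖v‖ ≠ 0 := norm_ne_zero_iff.2 h0
    refine ⟨‖v‖⁻¹ • v, Real.arccos c, ?_, ?_, Real.arccos_nonneg _, Real.arccos_le_pi _, ?_⟩
    · rw [norm_smul, norm_inv, norm_norm, inv_mul_cancel₀ hn]
    · rw [real_inner_smul_right, hpv, mul_zero]
    · rw [hsin, Real.cos_arccos hc2.1 hc2.2, smul_smul, mul_inv_cancel₀ hn, one_smul, hv]
      abel

theorem diamLE_rdr [FiniteDimensional ℝ E] (hE : 2 ≤ Module.finrank ℝ E) (r d : ℝ) (hr : 0 < r)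
    (hd : r * Real.pi ≤ d) : DiamLE (rdr (E := E) r) d := by
  intro p q hp hq δ hδ
  obtain ⟨w, θ, hw, hpw, hθ0, hθ1, hqe⟩ := exists_circle hE p q hp hq
  have hnorm : ∀ (a b : ℝ), ‖a • p + b • w‖ ^ 2 = a ^ 2 + b ^ 2 := by
    intro a b
    rw [← real_inner_self_eq_norm_sq, inner_add_left, inner_add_right, inner_add_right,
      real_inner_smul_left, real_inner_smul_right, real_inner_smul_left, real_inner_smul_right,
      real_inner_smul_left, real_inner_smul_right, real_inner_smul_left, real_inner_smul_right,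
      inner_self1 hp, inner_self1 hw, real_inner_comm p w, hpw]
    ring
  have hderiv : ∀ t : ℝ, HasDerivAt (fun t : ℝ => Real.cos (θ * t) • p + Real.sin (θ * t) • w)
      ((-(θ * Real.sin (θ * t))) • p + (θ * Real.cos (θ * t)) • w) t := by
    intro t
    have h1 : HasDerivAt (fun t : ℝ => θ * t) θ t := by
      simpa using (hasDerivAt_id t).const_mul θ
    have h2 := (h1.cos).smul_const p
    have h3 := (h1.sin).smul_const w
    have h4 := h2.add h3
    have e : (-(θ * Real.sin (θ * t))) • p + (θ * Real.cos (θ * t)) • w =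
        (-Real.sin (θ * t) * θ) • p + (Real.cos (θ * t) * θ) • w := by
      congr 2 <;> ring
    rw [e]
    exact h4
  refine ⟨fun t => Real.cos (θ * t) • p + Real.sin (θ * t) • w, ?_, ?_, ?_, ?_, ?_⟩
  · have h1 : ContDiff ℝ ∞ fun t : ℝ => θ * t := contDiff_const.mul contDiff_id
    exact (h1.cos.smul contDiff_const).add (h1.sin.smul contDiff_const)
  · intro t
    have h := hnorm (Real.cos (θ * t)) (Real.sin (θ * t))
    rw [Real.cos_sq_add_sin_sq] at h
    have h0 := norm_nonneg (Real.cos (θ * t) • p + Real.sin (θ * t) • w)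
    nlinarith
  · simp
  · simp only [mul_one]
    exact hqe.symm
  · have hint : ∀ t : ℝ, √(rdr r (Real.cos (θ * t) • p + Real.sin (θ * t) • w)
        (deriv (fun t : ℝ => Real.cos (θ * t) • p + Real.sin (θ * t) • w) t)
        (deriv (fun t : ℝ => Real.cos (θ * t) • p + Real.sin (θ * t) • w) t)) = r * θ := by
      intro t
      rw [(hderiv t).deriv]
      unfold rdr
      rw [real_inner_self_eq_norm_sq, hnorm]
      have e : r ^ 2 * ((-(θ * Real.sin (θ * t))) ^ 2 + (θ * Real.cos (θ * t)) ^ 2) =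
          (r * θ) ^ 2 := by
        have := Real.sin_sq_add_cos_sq (θ * t)
        linear_combination (r ^ 2 * θ ^ 2) * this
      rw [e, Real.sqrt_sq (by positivity)]
    simp only [hint]
    rw [intervalIntegral.integral_const, sub_zero, one_smul]
    nlinarith

theorem almostNonneg [FiniteDimensional ℝ E] (hE : 2 ≤ Module.finrank ℝ E) :
    AdmitsAlmostNonnegativeCurvature E := by
  intro ε hε
  refine ⟨rdr (1 / 4), isMetric_rdr _ (by norm_num), ⟨nabla, isLeviCivita_rdr _,
    secGE_rdr _ _ (by nlinarith)⟩, diamLE_rdr hE _ _ (by norm_num) ?_⟩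
  have := Real.pi_le_four
  linarith

theorem invariantMetric {G : Type} [Group G] [FiniteDimensional ℝ E]
    (hE : 2 ≤ Module.finrank ℝ E) (ρ : G →* (E ≃ₗᵢ[ℝ] E)) : AdmitsInvariantMetric ρ 16 1 := by
  refine ⟨rdr (1 / 4), isMetric_rdr _ (by norm_num), ?_, ⟨nabla, isLeviCivita_rdr _,
    secGE_rdr _ _ (by norm_num)⟩, diamLE_rdr hE _ _ (by norm_num) ?_⟩
  · intro g p u v
    unfold rdr
    congr 1
    exact LinearIsometryEquiv.inner_map_map _ _ _
  · have := Real.pi_le_four
    linarith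

end Pool.Agent.R735.TwoSing
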