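import Pool.Agent.R735.TwoSing.Act
import Pool.Agent.R735.TwoSing.Round

set_option autoImplicit false

open scoped RealInnerProductSpace ContDiff Quaternion

open Pool.Agent.R731.SO

namespace Pool.Agent.R735.TwoSing

/-- the free points -/
def Free (p : E8) : Prop := qa p ≠ 0 ∧ qb p ≠ 0

theorem cq_eq_one {z : Circle} (h : cq (z : ℂ) = 1) : z = 1 := by
  rw [← cq_one] at h
  exact Circle.ext (by rw [cq_inj h, Circle.coe_one])

theorem star_eq_one {x : ℍ[ℝ]} (h : star x = 1) : x = 1 := by
  rw [← star_star x, h, star_one]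

theorem snd_of_fix (g : GG) (p : E8) (hp : qb p ≠ 0) (h : rho g p = p) : g.2 = 1 := by
  rw [rho_apply] at h
  have hb : (g.2 : ℍ[ℝ]) * qb p = qb p := by
    have := qb_act (cq (g.1 : ℂ)) g.2 p
    rw [← this, h]
  apply Subtype.ext
  change (g.2 : ℍ[ℝ]) = 1
  exact mul_right_cancel₀ hp (by rw [hb, one_mul])

theorem stab_free (p : E8) (hp : Free p) : stab rho p = ⊥ := by
  rw [eq_bot_iff]
  intro g hg
  have hg' : rho g p = p := hg
  have h2 := snd_of_fix g p hp.2 hg'
  have ha : (g.2 : ℍ[ℝ]) * qa p * star (cq (g.1 : ℂ)) = qa p := by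
    rw [← qa_act, ← rho_apply, hg']
  rw [h2, Metric.unitSphere.coe_one, one_mul] at ha
  have h3 : star (cq (g.1 : ℂ)) = 1 := mul_left_cancel₀ hp.1 (by rw [ha, mul_one])
  have h1 : g.1 = 1 := cq_eq_one (star_eq_one h3)
  exact Prod.ext h1 h2

/-- the isotropy group of the points with vanishing first coordinate -/
theorem stab_a (p : E8) (ha : qa p = 0) (hb : qb p ≠ 0) :
    stab rho p = (⊤ : Subgroup Circle).prod (⊥ : Subgroup SU2) := by
  ext g
  constructor
  · intro hg
    have h2 := snd_of_fix g p hb hg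
    exact Subgroup.mem_prod.2 ⟨trivial, h2⟩
  · intro hg
    have h2 : g.2 = 1 := (Subgroup.mem_prod.1 hg).2
    change rho g p = p
    rw [rho_apply]
    apply ext2
    · rw [qa_act, ha, mul_zero, zero_mul]
    · rw [qb_act, h2, Metric.unitSphere.coe_one, one_mul]

/-- the unit complex number `i` -/
noncomputable def zi : Circle := ⟨Complex.I, mem_sphere_zero_iff_norm.2 Complex.norm_I⟩

theorem zi_ne : zi ≠ 1 := by
  intro h
  have h1 : (zi : ℂ) = 1 := by rw [h, Circle.coe_one]
  have h2 := congrArg Complex.re h1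
  have h3 : (zi : ℂ).re = 0 := Complex.I_re
  rw [h3, Complex.one_re] at h2
  exact zero_ne_one h2

/-- an element of the isotropy group of the points with vanishing second coordinate -/
theorem mem_stab_b (p : E8) (hp : ‖p‖ = 1) (hb : qb p = 0) (z : Circle) :
    ∃ q : SU2, (q : ℍ[ℝ]) = qa p * cq (z : ℂ) * star (qa p) ∧ (z, q) ∈ stab rho p := by
  have h1 : Quaternion.normSq (qa p) = 1 := by
    have h := norm_sq_eq p
    rw [hp, hb, map_zero, add_zero] at h
    rw [← h]; norm_num
  have h2 : ‖qa p‖ = 1 := by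
    rw [Quaternion.normSq_eq_norm_mul_self] at h1
    have := norm_nonneg (qa p)
    nlinarith
  have h3 : star (qa p) * qa p = 1 := by
    rw [Quaternion.star_mul_self, h1]; rfl
  have h4 : Quaternion.normSq (cq (z : ℂ)) = 1 := by
    rw [Quaternion.normSq_eq_norm_mul_self, norm_cq, one_mul]
  have h5 : cq (z : ℂ) * star (cq (z : ℂ)) = 1 := by
    rw [Quaternion.self_mul_star, h4]; rfl
  refine ⟨⟨qa p * cq (z : ℂ) * star (qa p), ?_⟩, rfl, ?_⟩
  · rw [mem_sphere_zero_iff_norm, norm_mul, norm_mul, norm_star, h2, norm_cq]; norm_num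
  · change rho _ p = p
    rw [rho_apply]
    apply ext2
    · rw [qa_act]
      change qa p * cq (z : ℂ) * star (qa p) * qa p * star (cq (z : ℂ)) = qa p
      rw [mul_assoc (qa p * cq (z : ℂ)), h3, mul_one, mul_assoc, h5, mul_one]
    · rw [qb_act, hb, mul_zero]

theorem qa_ne_of (p : E8) (hp : ‖p‖ = 1) (hb : qb p = 0) : qa p ≠ 0 := by
  intro ha
  have h := norm_sq_eq p
  rw [hp, hb, ha, map_zero, add_zero] at h
  norm_num at h

theorem qb_ne_of (p : E8) (hp : ‖p‖ = 1) (ha : qa p = 0) : qb p ≠ 0 := fun hb =>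
  qa_ne_of p hp hb ha

theorem stab_sing (p : E8) (hp : ‖p‖ = 1) (hs : ¬ Free p) : stab rho p ≠ ⊥ := by
  intro h
  by_cases ha : qa p = 0
  · rw [stab_a p ha (qb_ne_of p hp ha)] at h
    have h1 : (zi, (1 : SU2)) ∈ (⊤ : Subgroup Circle).prod (⊥ : Subgroup SU2) :=
      Subgroup.mem_prod.2 ⟨trivial, rfl⟩
    rw [h] at h1
    exact zi_ne (congrArg Prod.fst (Subgroup.mem_bot.1 h1))
  · have hb : qb p = 0 := by
      by_contra hb
      exact hs ⟨ha, hb⟩
    obtain ⟨q, -, hq⟩ := mem_stab_b p hp hb zi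
    rw [h] at hq
    exact zi_ne (congrArg Prod.fst (Subgroup.mem_bot.1 hq))

theorem conjSub_bot {G : Type} [Group G] (K : Subgroup G) : ConjSub ⊥ K ↔ K = ⊥ := by
  constructor
  · rintro ⟨g, h⟩
    rw [h, Subgroup.map_bot]
  · rintro rfl
    exact ⟨1, (Subgroup.map_bot _).symm⟩

theorem conjSub_to_bot {G : Type} [Group G] (H : Subgroup G) (h : ConjSub H ⊥) : H = ⊥ := by
  obtain ⟨g, hg⟩ := h
  rw [eq_comm, Subgroup.map_eq_bot_iff_of_injective] at hg
  · exact hg
  · exact (MulAut.conj g).injective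

theorem norm_Sph (p : Sph E8) : ‖(p : E8)‖ = 1 := mem_sphere_zero_iff_norm.1 p.2

theorem setOf_conj_bot : {p : Sph E8 | ConjSub ⊥ (stab rho p)} = {p : Sph E8 | Free p} := by
  ext p
  simp only [Set.mem_ofPred_eq, conjSub_bot]
  constructor
  · intro h
    by_contra hs
    exact stab_sing p (norm_Sph p) hs h
  · intro h
    exact stab_free p h

theorem isOpen_ne {Q : E8 → ℍ[ℝ]} (hQ : Continuous Q) : IsOpen {p : Sph E8 | Q p ≠ 0} := by
  have h1 : IsClosed {p : Sph E8 | Q p = 0} :=
    isClosed_eq (hQ.comp continuous_subtype_val) continuous_const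
  exact h1.isOpen_compl

theorem isOpen_free : IsOpen {p : Sph E8 | Free p} :=
  (isOpen_ne continuous_qa).inter (isOpen_ne continuous_qb)

/-- a linear condition which fails on the orthogonal complement fails densely -/
theorem dense_ne (Q : E8 →L[ℝ] ℍ[ℝ]) (e : E8) (he : ‖e‖ = 1) (hQe : Q e ≠ 0)
    (horth : ∀ p, Q p = 0 → ⟪p, e⟫ = 0) : Dense {p : Sph E8 | Q p ≠ 0} := by
  intro p
  by_cases hp : Q p = 0
  · -- the curve `cos t p + sin t e`
    let γ : ℝ → Sph E8 := fun t => ⟨Real.cos t • (p : E8) + Real.sin t • e, by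
      have hp1 : ‖(p : E8)‖ = 1 := norm_Sph p
      rw [mem_sphere_zero_iff_norm]
      have h : ‖Real.cos t • (p : E8) + Real.sin t • e‖ ^ 2 = 1 := by
        rw [← real_inner_self_eq_norm_sq, inner_add_left, inner_add_right, inner_add_right,
          real_inner_smul_left, real_inner_smul_right, real_inner_smul_left,
          real_inner_smul_right, real_inner_smul_left, real_inner_smul_right,
          real_inner_smul_left, real_inner_smul_right,
          real_inner_self_eq_norm_sq, real_inner_self_eq_norm_sq, hp1, he,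
          real_inner_comm (p : E8) e, horth p hp]
        have := Real.sin_sq_add_cos_sq t
        nlinarith
      have h0 := norm_nonneg (Real.cos t • (p : E8) + Real.sin t • e)
      nlinarith⟩
    have hγc : Continuous γ := by
      refine Continuous.subtype_mk ?_ _
      exact (Real.continuous_cos.smul continuous_const).add
        (Real.continuous_sin.smul continuous_const)
    have hγ0 : γ 0 = p := by
      apply Subtype.ext
      change Real.cos 0 • (p : E8) + Real.sin 0 • e = p
      simp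
    rw [← hγ0]
    have hlim : Filter.Tendsto γ (nhdsWithin 0 (Set.Ioi 0)) (nhds (γ 0)) :=
      (hγc.tendsto 0).mono_left nhdsWithin_le_nhds
    refine mem_closure_of_tendsto hlim ?_
    have h3 : Set.Ioo (0 : ℝ) 3 ∈ nhdsWithin (0 : ℝ) (Set.Ioi 0) := Ioo_mem_nhdsGT (by norm_num)
    filter_upwards [h3] with t ht
    intro hs
    have h4 : Q (Real.cos t • (p : E8) + Real.sin t • e) = 0 := hs
    rw [map_add, map_smul, map_smul, hp, smul_zero, zero_add] at h4
    have h6 : 0 < Real.sin t := Real.sin_pos_of_pos_of_lt_pi ht.1 (by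
      have := Real.pi_gt_three; linarith [ht.2])
    rcases smul_eq_zero.1 h4 with h | h
    · exact h6.ne' h
    · exact hQe h
  · exact subset_closure hp

theorem norm_mk (a b : ℍ[ℝ]) (h : Quaternion.normSq a + Quaternion.normSq b = 1) :
    ‖mk a b‖ = 1 := by
  have h : ‖mk a b‖ ^ 2 = 1 := by
    rw [norm_sq_eq, qa_mk, qb_mk, h]
  have := norm_nonneg (mk a b)
  nlinarith

theorem dense_free : Dense {p : Sph E8 | Free p} := by
  have h1 : Dense {p : Sph E8 | qa p ≠ 0} := by
    refine dense_ne qaL (mk 1 0) (norm_mk _ _ (by simp)) ?_ ?_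
    · rw [qaL_apply, qa_mk]; exact one_ne_zero
    · intro p hp
      have h0 : p 0 = 0 := congrArg QuaternionAlgebra.re hp
      rw [PiLp.inner_apply]
      simp only [Fin.sum_univ_succ, Fin.sum_univ_zero]
      simp [mk, h0]
  have h2 : Dense {p : Sph E8 | qb p ≠ 0} := by
    refine dense_ne qbL (mk 0 1) (norm_mk _ _ (by simp)) ?_ ?_
    · rw [qbL_apply, qb_mk]; exact one_ne_zero
    · intro p hp
      have h0 : p 4 = 0 := congrArg QuaternionAlgebra.re hp
      rw [PiLp.inner_apply]
      simp only [Fin.sum_univ_succ, Fin.sum_univ_zero]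
      simp [mk]
      exact h0
  exact h1.inter_of_isOpen_left h2 (isOpen_ne continuous_qa)

theorem isPrincipalType_bot : IsPrincipalType rho (⊥ : Subgroup GG) := by
  unfold IsPrincipalType
  rw [setOf_conj_bot]
  exact ⟨isOpen_free, dense_free⟩

theorem isPrincipalPt_iff (p : Sph E8) : IsPrincipalPt rho p ↔ Free p := by
  constructor
  · rintro ⟨H, hH, hc⟩
    by_contra hs
    -- a free point whose isotropy group is conjugate to `H`
    have : Nonempty (Sph E8) := ⟨p⟩
    obtain ⟨p0, hp0⟩ := dense_free.nonempty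
    obtain ⟨p', hp1, hp2⟩ := hH.2.inter_open_nonempty _ isOpen_free ⟨p0, hp0⟩
    have h5 : ConjSub H (stab rho p') := hp2
    rw [stab_free p' hp1] at h5
    rw [conjSub_to_bot H h5, conjSub_bot] at hc
    exact stab_sing p (norm_Sph p) hs hc
  · intro h
    exact ⟨⊥, isPrincipalType_bot, (conjSub_bot _).2 (stab_free p h)⟩

theorem rho_injective : Function.Injective rho := by
  rw [injective_iff_map_eq_one]
  intro g hg
  have h1 : g ∈ stab rho (mk 1 1) := by
    change rho g (mk 1 1) = mk 1 1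
    rw [hg]; rfl
  rw [stab_free (mk 1 1) ⟨by rw [qa_mk]; exact one_ne_zero, by rw [qb_mk]; exact one_ne_zero⟩]
    at h1
  exact Subgroup.mem_bot.1 h1

end Pool.Agent.R735.TwoSing
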