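import Pool.Agent.R735.TwoSing.Orb

set_option autoImplicit false

open scoped RealInnerProductSpace ContDiff Quaternion

open Pool.Agent.R731.SO

namespace Pool.Agent.R735.TwoSing

theorem inner_one_left (x : ℍ[ℝ]) : ⟪(1 : ℍ[ℝ]), x⟫ = x.re := by
  rw [Quaternion.inner_def]; simp

/-- the velocity of a curve of unit quaternions through `1` is imaginary -/
theorem re_velocity (q : ℝ → ℍ[ℝ]) (ξ : ℍ[ℝ]) (hn1 : ∀ t, ‖q t‖ = 1) (hq0 : q 0 = 1)
    (hqd : HasDerivAt q ξ 0) : ξ.re = 0 := by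
  have hn : ∀ t, ⟪q t, q t⟫ = 1 := by
    intro t
    rw [real_inner_self_eq_norm_sq, hn1 t]; norm_num
  have h1 := hqd.inner ℝ hqd
  have h2 : HasDerivAt (fun t => ⟪q t, q t⟫) 0 0 := by
    have : (fun t => ⟪q t, q t⟫) = fun _ => (1 : ℝ) := funext hn
    rw [this]; exact hasDerivAt_const _ _
  have h3 := h1.unique h2
  rw [hq0, real_inner_comm (1 : ℍ[ℝ]) ξ, inner_one_left] at h3
  linarith

/-- The velocity of the action of a curve of quaternions. -/
theorem hasDerivAt_act (q s : ℝ → ℍ[ℝ]) (ξ η : ℍ[ℝ]) (h1 : q 0 = 1) (hs1 : s 0 = 1)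
    (hq : HasDerivAt q ξ 0) (hs : HasDerivAt s η 0) (p : E8) :
    HasDerivAt (fun t => mk (q t * qa p * s t) (q t * qb p))
      (mk (ξ * qa p + qa p * η) (ξ * qb p)) 0 := by
  have ha : HasDerivAt (fun t => q t * qa p * s t) (ξ * qa p + qa p * η) 0 := by
    have := (hq.mul_const (qa p)).fun_mul hs
    simpa [h1, hs1] using this
  have hb : HasDerivAt (fun t => q t * qb p) (ξ * qb p) 0 := hq.mul_const _
  have h := mkL.hasFDerivAt.comp_hasDerivAt (x := (0 : ℝ)) (ha.prodMk hb)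
  exact h

/-- the imaginary quaternion with given components -/
noncomputable def im (x : Fin 4 → ℝ) : ℍ[ℝ] := ⟨0, x 0, x 1, x 2⟩
/-- a multiple of `i` -/
noncomputable def ii (x : Fin 4 → ℝ) : ℍ[ℝ] := ⟨0, x 3, 0, 0⟩

theorem im_add (x y : Fin 4 → ℝ) : im (x + y) = im x + im y := by ext <;> simp [im]
theorem ii_add (x y : Fin 4 → ℝ) : ii (x + y) = ii x + ii y := by ext <;> simp [ii]
theorem im_smul (r : ℝ) (x : Fin 4 → ℝ) : im (r • x) = r • im x := by ext <;> simp [im]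
theorem ii_smul (r : ℝ) (x : Fin 4 → ℝ) : ii (r • x) = r • ii x := by ext <;> simp [ii]

/-- the infinitesimal action -/
noncomputable def LL (p : E8) : (Fin 4 → ℝ) →ₗ[ℝ] E8 where
  toFun x := mk (im x * qa p + qa p * ii x) (im x * qb p)
  map_add' x y := by
    rw [im_add, ii_add, ← mk_add, add_mul, add_mul, mul_add]
    congr 1
    abel
  map_smul' r x := by
    rw [im_smul, ii_smul, RingHom.id_apply, ← mk_smul]
    simp [smul_add]

theorem LL_apply (p : E8) (x : Fin 4 → ℝ) :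
    LL p x = mk (im x * qa p + qa p * ii x) (im x * qb p) := rfl

theorem LL_injective (p : E8) (hp : Free p) : Function.Injective (LL p) := by
  rw [← LinearMap.ker_eq_bot, LinearMap.ker_eq_bot']
  intro x hx
  rw [LL_apply] at hx
  have hb : im x * qb p = 0 := by
    rw [← qb_mk (im x * qa p + qa p * ii x) (im x * qb p), hx]
    exact qbL.map_zero
  have ha : im x * qa p + qa p * ii x = 0 := by
    rw [← qa_mk (im x * qa p + qa p * ii x) (im x * qb p), hx]
    exact qaL.map_zero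
  have hi : im x = 0 := (mul_eq_zero.1 hb).resolve_right hp.2
  rw [hi, zero_mul, zero_add] at ha
  have hj : ii x = 0 := (mul_eq_zero.1 ha).resolve_left hp.1
  funext i
  fin_cases i
  · exact congrArg QuaternionAlgebra.imI hi
  · exact congrArg QuaternionAlgebra.imJ hi
  · exact congrArg QuaternionAlgebra.imK hi
  · exact congrArg QuaternionAlgebra.imI hj

/-- the `j`-component as a continuous linear map -/
noncomputable def jL : ℍ[ℝ] →L[ℝ] ℝ :=
  LinearMap.toContinuousLinearMap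
    { toFun := fun x => x.imJ
      map_add' := fun _ _ => rfl
      map_smul' := fun _ _ => rfl }
/-- the `k`-component as a continuous linear map -/
noncomputable def kL : ℍ[ℝ] →L[ℝ] ℝ :=
  LinearMap.toContinuousLinearMap
    { toFun := fun x => x.imK
      map_add' := fun _ _ => rfl
      map_smul' := fun _ _ => rfl }

theorem deriv_zero_of (L : ℍ[ℝ] →L[ℝ] ℝ) (s : ℝ → ℍ[ℝ]) (η : ℍ[ℝ]) (h : HasDerivAt s η 0)
    (h0 : ∀ t, L (s t) = 0) : L η = 0 := by
  have h1 : HasDerivAt (fun t => L (s t)) (L η) 0 :=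
    L.hasFDerivAt.comp_hasDerivAt (x := (0 : ℝ)) h
  have h2 : (fun t => L (s t)) = fun _ => 0 := funext h0
  rw [h2] at h1
  exact h1.unique (hasDerivAt_const _ _)

/-- velocities of a principal orbit come from the infinitesimal action -/
theorem velocities_sub (p : E8) (hp : Free p) (v : E8) (hv : v ∈ velocities (orbit rho p) p) :
    v ∈ Set.range (LL p) := by
  obtain ⟨γ, hγ, hγ0, hd⟩ := hv
  choose g hg using hγ
  let q : ℝ → ℍ[ℝ] := fun t => ((g t).2 : ℍ[ℝ])
  let s : ℝ → ℍ[ℝ] := fun t => star (cq ((g t).1 : ℂ))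
  have hγe : γ = fun t => mk (q t * qa p * s t) (q t * qb p) := by
    funext t; exact hg t
  have hb : ∀ t, qb (γ t) = q t * qb p := fun t => by rw [hγe]; exact qb_mk _ _
  have ha : ∀ t, qa (γ t) = q t * qa p * s t := fun t => by rw [hγe]; exact qa_mk _ _
  have hqn : ∀ t, ‖q t‖ = 1 := fun t => norm_SU2 _
  have hsn : ∀ t, ‖s t‖ = 1 := fun t => by
    change ‖star (cq _)‖ = 1
    rw [norm_star, norm_cq]
  have hqq : ∀ t, star (q t) * q t = 1 := by
    intro t
    rw [Quaternion.star_mul_self, Quaternion.normSq_eq_norm_mul_self, hqn t, one_mul]; rfl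
  have hq : q = fun t => qb (γ t) * (qb p)⁻¹ := by
    funext t
    rw [hb t, mul_assoc, mul_inv_cancel₀ hp.2, mul_one]
  have hqd : HasDerivAt q (qb v * (qb p)⁻¹) 0 := by
    rw [hq]
    exact (qbL.hasFDerivAt.comp_hasDerivAt (x := (0 : ℝ)) hd).mul_const _
  have hq0 : q 0 = 1 := by
    rw [hq]
    change qb (γ 0) * (qb p)⁻¹ = 1
    rw [hγ0, mul_inv_cancel₀ hp.2]
  have hsq : HasDerivAt (fun t => star (q t)) (star (qb v * (qb p)⁻¹)) 0 := by
    have := starH.hasFDerivAt.comp_hasDerivAt (x := (0 : ℝ)) hqd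
    exact this
  have had : HasDerivAt (fun t => qa (γ t)) (qa v) 0 :=
    qaL.hasFDerivAt.comp_hasDerivAt (x := (0 : ℝ)) hd
  have hs : s = fun t => (qa p)⁻¹ * (star (q t) * qa (γ t)) := by
    funext t
    rw [ha t, ← mul_assoc (star (q t)), ← mul_assoc (star (q t)), hqq t, one_mul, ← mul_assoc,
      inv_mul_cancel₀ hp.1, one_mul]
  obtain ⟨η, hsd⟩ : ∃ η, HasDerivAt s η 0 := by
    rw [hs]
    exact ⟨_, (hsq.fun_mul had).const_mul _⟩
  have hs0 : s 0 = 1 := by
    rw [hs]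
    change (qa p)⁻¹ * (star (q 0) * qa (γ 0)) = 1
    rw [hq0, hγ0, star_one, one_mul, inv_mul_cancel₀ hp.1]
  set ξ := qb v * (qb p)⁻¹ with hξ
  have hre := re_velocity q ξ hqn hq0 hqd
  have hre' := re_velocity s η hsn hs0 hsd
  have hj : η.imJ = 0 := deriv_zero_of jL s η hsd (fun t => by
    change (star (cq _)).imJ = 0
    simp [cq])
  have hk : η.imK = 0 := deriv_zero_of kL s η hsd (fun t => by
    change (star (cq _)).imK = 0
    simp [cq])
  have h4 := hasDerivAt_act q s ξ η hq0 hs0 hqd hsd p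
  rw [← hγe] at h4
  refine ⟨![ξ.imI, ξ.imJ, ξ.imK, η.imI], ?_⟩
  have e1 : im ![ξ.imI, ξ.imJ, ξ.imK, η.imI] = ξ := by
    ext <;> simp [im, hre]
  have e2 : ii ![ξ.imI, ξ.imJ, ξ.imK, η.imI] = η := by
    ext <;> simp [ii, hre', hj, hk]
  rw [LL_apply, e1, e2]
  exact h4.unique hd

theorem exists_curve (ξ : ℍ[ℝ]) (hre : ξ.re = 0) :
    ∃ q : ℝ → ℍ[ℝ], (∀ t, ‖q t‖ = 1) ∧ q 0 = 1 ∧ HasDerivAt q ξ 0 := by
  set c : ℝ := ‖ξ‖ ^ 2 with hc
  have hc0 : 0 ≤ c := by positivity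
  let q : ℝ → ℍ[ℝ] := fun t => (√(1 + t ^ 2 * c))⁻¹ • (1 + t • ξ)
  have hpos : ∀ t : ℝ, 0 < 1 + t ^ 2 * c := fun t => by positivity
  have hnorm : ∀ t, ‖q t‖ = 1 := by
    intro t
    have e1 : ⟪(1 : ℍ[ℝ]), ξ⟫ = 0 := by rw [inner_one_left]; exact hre
    have e2 : ⟪ξ, (1 : ℍ[ℝ])⟫ = 0 := by rw [real_inner_comm]; exact e1
    have e3 : ⟪(1 : ℍ[ℝ]), (1 : ℍ[ℝ])⟫ = 1 := by rw [real_inner_self_eq_norm_sq, norm_one]; norm_num
    have h1 : ‖(1 : ℍ[ℝ]) + t • ξ‖ ^ 2 = 1 + t ^ 2 * c := by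
      rw [← real_inner_self_eq_norm_sq, inner_add_left, inner_add_right, inner_add_right,
        real_inner_smul_left, real_inner_smul_right, real_inner_smul_left, real_inner_smul_right,
        e1, e2, e3, real_inner_self_eq_norm_sq, hc]
      ring
    have h2 : ‖(1 : ℍ[ℝ]) + t • ξ‖ = √(1 + t ^ 2 * c) := by
      rw [← h1, Real.sqrt_sq (norm_nonneg _)]
    change ‖(√(1 + t ^ 2 * c))⁻¹ • ((1 : ℍ[ℝ]) + t • ξ)‖ = 1
    rw [norm_smul, h2, norm_inv, Real.norm_of_nonneg (Real.sqrt_nonneg _),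
      inv_mul_cancel₀ (Real.sqrt_pos.2 (hpos t)).ne']
  have hd1 : HasDerivAt (fun t : ℝ => 1 + t ^ 2 * c) 0 0 := by
    have := ((hasDerivAt_pow 2 (0 : ℝ)).mul_const c).const_add 1
    simpa using this
  have hd2 : HasDerivAt (fun t : ℝ => √(1 + t ^ 2 * c)) 0 0 := by
    have := hd1.sqrt (hpos 0).ne'
    simpa using this
  have hd3 : HasDerivAt (fun t : ℝ => (√(1 + t ^ 2 * c))⁻¹) 0 0 := by
    have := hd2.fun_inv (Real.sqrt_pos.2 (hpos 0)).ne'
    simpa using this
  have hd4 : HasDerivAt (fun t : ℝ => (1 : ℍ[ℝ]) + t • ξ) ξ 0 := by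
    have := ((hasDerivAt_id (0 : ℝ)).smul_const ξ).const_add (1 : ℍ[ℝ])
    simpa using this
  have hqd : HasDerivAt q ξ 0 := by
    have h := hd3.fun_smul hd4
    have e : (√(1 + (0 : ℝ) ^ 2 * c))⁻¹ • ξ + (0 : ℝ) • ((1 : ℍ[ℝ]) + (0 : ℝ) • ξ) = ξ := by simp
    rw [e] at h
    exact h
  have hq0 : q 0 = 1 := by simp [q]
  exact ⟨q, hnorm, hq0, hqd⟩

theorem velocities_sup (p : E8) (x : Fin 4 → ℝ) : LL p x ∈ velocities (orbit rho p) p := by
  obtain ⟨q, hqn, hq0, hqd⟩ := exists_curve (im x) rfl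
  let s : ℝ → ℍ[ℝ] := fun t => cq (Complex.exp (((t * x 3 : ℝ) : ℂ) * Complex.I))
  have hs0 : s 0 = 1 := by
    change cq _ = 1
    simp [cq_one]
  have hsd : HasDerivAt s (ii x) 0 := by
    have h1 : HasDerivAt (fun t : ℝ => ((t * x 3 : ℝ) : ℂ)) ((x 3 : ℝ) : ℂ) 0 := by
      have h0 : HasDerivAt (fun t : ℝ => t * x 3) (x 3) 0 := by
        simpa using (hasDerivAt_id (0 : ℝ)).mul_const (x 3)
      exact h0.ofReal_comp
    have h2 := (h1.mul_const Complex.I).cexp
    have h3 := cqL.hasFDerivAt.comp_hasDerivAt (x := (0 : ℝ)) h2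
    have e : cqL (Complex.exp (((0 * x 3 : ℝ) : ℂ) * Complex.I) * (((x 3 : ℝ) : ℂ) * Complex.I)) =
        ii x := by
      change cq _ = ii x
      rw [zero_mul, Complex.ofReal_zero, zero_mul, Complex.exp_zero, one_mul]
      ext <;> simp [cq, ii]
    rw [e] at h3
    exact h3
  refine ⟨fun t => mk (q t * qa p * s t) (q t * qb p), fun t => ?_, ?_, ?_⟩
  · refine ⟨((Circle.exp (t * x 3))⁻¹, ⟨q t, mem_sphere_zero_iff_norm.2 (hqn t)⟩), ?_⟩
    rw [rho_apply]
    unfold act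
    have e : star (cq (((Circle.exp (t * x 3))⁻¹ : Circle) : ℂ)) = s t := by
      rw [Circle.coe_inv_eq_conj, Circle.coe_exp]
      change _ = cq _
      ext <;> simp [cq]
    rw [e]
  · change mk (q 0 * qa p * s 0) (q 0 * qb p) = p
    rw [hq0, hs0, one_mul, mul_one, one_mul, mk_eta]
  · exact hasDerivAt_act q s (im x) (ii x) hq0 hs0 hqd hsd p

theorem velocities_free (p : E8) (hp : Free p) :
    velocities (orbit rho p) p = Set.range (LL p) := by
  apply Set.Subset.antisymm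
  · intro v hv
    exact velocities_sub p hp v hv
  · rintro _ ⟨x, rfl⟩
    exact velocities_sup p x

theorem orbitDim_free (p : E8) (hp : Free p) : orbitDim rho p = 4 := by
  unfold orbitDim
  rw [velocities_free p hp]
  have h : Submodule.span ℝ (Set.range (LL p)) = LinearMap.range (LL p) := by
    rw [← LinearMap.coe_range, Submodule.span_eq]
  rw [h, LinearMap.finrank_range_of_inj (LL_injective p hp)]
  simp

theorem finrank_ker (Q : E8 →L[ℝ] ℍ[ℝ]) (hQ : Function.Surjective Q) :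
    Module.finrank ℝ (LinearMap.ker (Q : E8 →ₗ[ℝ] ℍ[ℝ])) = 4 := by
  have h := LinearMap.finrank_range_add_finrank_ker (Q : E8 →ₗ[ℝ] ℍ[ℝ])
  have h2 : LinearMap.range (Q : E8 →ₗ[ℝ] ℍ[ℝ]) = ⊤ := LinearMap.range_eq_top.2 hQ
  rw [h2, finrank_top, Quaternion.finrank_eq_four] at h
  have h3 : Module.finrank ℝ E8 = 8 := by simp
  omega

/-- the orbits of the points annihilated by an equivariant coordinate have dimension less than
four -/
theorem orbitDim_lt (Q : E8 →L[ℝ] ℍ[ℝ]) (hQ : Function.Surjective Q) (p : E8) (hp1 : ‖p‖ = 1)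
    (hp : Q p = 0) (hinv : ∀ g, Q (rho g p) = 0) : orbitDim rho p < 4 := by
  let K : Submodule ℝ E8 := LinearMap.ker (Q : E8 →ₗ[ℝ] ℍ[ℝ])
  let W : Submodule ℝ E8 := K ⊓ (Submodule.span ℝ {p})ᗮ
  have hsub : velocities (orbit rho p) p ⊆ W := by
    rintro v ⟨γ, hγ, hγ0, hd⟩
    refine ⟨?_, ?_⟩
    · have h1 : HasDerivAt (fun t => Q (γ t)) (Q v) 0 :=
        Q.hasFDerivAt.comp_hasDerivAt (x := (0 : ℝ)) hd
      have h2 : (fun t => Q (γ t)) = fun _ => 0 := by
        funext t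
        obtain ⟨g, hg⟩ := hγ t
        rw [hg]
        exact hinv g
      rw [h2] at h1
      exact h1.unique (hasDerivAt_const _ _)
    · rw [SetLike.mem_coe, Submodule.mem_orthogonal_singleton_iff_inner_left]
      have h1 := hd.inner ℝ hd
      have h2 : HasDerivAt (fun t => ⟪γ t, γ t⟫) 0 0 := by
        have : (fun t => ⟪γ t, γ t⟫) = fun _ => (1 : ℝ) := by
          funext t
          obtain ⟨g, hg⟩ := hγ t
          rw [real_inner_self_eq_norm_sq, hg, LinearIsometryEquiv.norm_map, hp1]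
          norm_num
        rw [this]; exact hasDerivAt_const _ _
      have h3 := h1.unique h2
      rw [hγ0, real_inner_comm v p] at h3
      linarith
  have hlt : W < K := by
    refine lt_of_le_of_ne inf_le_left ?_
    intro h
    have h1 : p ∈ W := by rw [h]; exact hp
    have h2 := (Submodule.mem_orthogonal_singleton_iff_inner_left).1 h1.2
    rw [real_inner_self_eq_norm_sq, hp1] at h2
    norm_num at h2
  unfold orbitDim
  calc Module.finrank ℝ (Submodule.span ℝ (velocities (orbit rho p) p))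
      ≤ Module.finrank ℝ W := Submodule.finrank_mono (Submodule.span_le.2 hsub)
    _ < Module.finrank ℝ K := Submodule.finrank_lt_finrank_of_lt hlt
    _ = 4 := finrank_ker Q hQ

theorem orbitDim_sing (p : Sph E8) (hp : ¬ Free p) : orbitDim rho p < 4 := by
  by_cases ha : qa p = 0
  · refine orbitDim_lt qaL (fun y => ⟨mk y 0, qa_mk _ _⟩) p (norm_Sph p) ha ?_
    intro g
    rw [qaL_apply, rho_apply, qa_act, ha, mul_zero, zero_mul]
  · have hb : qb p = 0 := by
      by_contra hb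
      exact hp ⟨ha, hb⟩
    refine orbitDim_lt qbL (fun y => ⟨mk 0 y, qb_mk _ _⟩) p (norm_Sph p) hb ?_
    intro g
    rw [qbL_apply, rho_apply, qb_act, hb, mul_zero]

end Pool.Agent.R735.TwoSing
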